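import Pool.Agent.Lib.MP_db1bc6_al.Main

/-!
The groups generated by the three involutions of the three-branch coloured trees: the symmetric
group for odd `k` and the alternating group for even `k`, except for `k = 2`, where the group is
isomorphic to PSL(2,7), and for the colourings with the colour differences `d, d, -d` for `k = 4`,
where it is isomorphic to PSL(3,3).
-/

namespace Pool.Agent.Results.MP_db1bc6_al.GroupsOfTrees

open TriTree

/-- For every `k ≥ 1` and every admissible colouring, the group is `S_n` for odd `k` and `A_n` for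
even `k`, `n = 3k + 1`, except that it is isomorphic to PSL(2,7) for `k = 2` and to PSL(3,3) for
`k = 4` and the colour differences `d, d, -d`. -/
theorem result :
    (∀ (k : ℕ) (φ : Fin k → ZMod 3), 1 ≤ k → Admissible φ → k ≠ 2 → ¬ Exceptional φ →
      G φ = if Odd k then ⊤ else alternatingGroup (Vert k)) ∧
    (∀ φ : Fin 2 → ZMod 3, Admissible φ →
      Nonempty (G φ ≃* Matrix.ProjectiveSpecialLinearGroup (Fin 2) (ZMod 7))) ∧
    (∀ φ : Fin 4 → ZMod 3, Admissible φ → Exceptional φ →
      Nonempty (G φ ≃* Matrix.ProjectiveSpecialLinearGroup (Fin 3) (ZMod 3))) :=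
  ⟨fun _ _ hk hφ h2 h4 => main hk hφ h2 h4, fun _ hφ => exc_two hφ,
    fun _ hφ h => exc_four hφ h⟩

end Pool.Agent.Results.MP_db1bc6_al.GroupsOfTrees
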